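import Pool.Agent.TH579.FSig

/-!
`S_1(Γ, Ω)` is hereditary for relative `F_σ` subsets of sets of reals.
-/

set_option autoImplicit false

open Set

namespace Pool.Agent.Results.MP_26524f_gt.S1Hereditary

/-- `𝒰` is a cover of `X` by proper relatively open subsets of `X`. -/
def OpenCover (X : Set ℝ) (𝒰 : Set (Set ℝ)) : Prop :=
  (∀ U ∈ 𝒰, ∃ V : Set ℝ, IsOpen V ∧ U = V ∩ X) ∧ X ∉ 𝒰 ∧ X ⊆ ⋃₀ 𝒰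

/-- `𝒰` is an open `γ`-cover of `X`. -/
def GammaCover (X : Set ℝ) (𝒰 : Set (Set ℝ)) : Prop :=
  OpenCover X 𝒰 ∧ 𝒰.Infinite ∧ ∀ x ∈ X, {U ∈ 𝒰 | x ∉ U}.Finite

/-- `𝒰` is an open `ω`-cover of `X`. -/
def OmegaCover (X : Set ℝ) (𝒰 : Set (Set ℝ)) : Prop :=
  OpenCover X 𝒰 ∧ ∀ F : Finset ℝ, (↑F : Set ℝ) ⊆ X → ∃ U ∈ 𝒰, (↑F : Set ℝ) ⊆ U

/-- `S_1(Γ, Ω)` for the set of reals `X`. -/
def S1GammaOmega (X : Set ℝ) : Prop :=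
  ∀ 𝒰 : ℕ → Set (Set ℝ), (∀ n, GammaCover X (𝒰 n)) →
    ∃ V : ℕ → Set ℝ, (∀ n, V n ∈ 𝒰 n) ∧ OmegaCover X (range V)

/-- If a set of reals `X` satisfies `S_1(Γ, Ω)`, then so does every subset of `X` which is a
countable union of sets closed in `X`. -/
theorem result : ∀ X Y : Set ℝ,
    (∃ K : ℕ → Set ℝ, (∀ n, IsClosed (K n)) ∧ Y = X ∩ (⋃ n, K n)) →
      S1GammaOmega X → S1GammaOmega Y := by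
  intro X Y hK hX
  have h := Pool.Agent.TH579.FSig.s1 hK (fun 𝒰 h𝒰 => by
    obtain ⟨V, h1, h2, h3⟩ := hX 𝒰 (fun n => by
      obtain ⟨g1, g2, g3, g4, g5⟩ := h𝒰 n
      exact ⟨⟨g1, g2, g3⟩, g4, g5⟩)
    exact ⟨V, h1, h2.2.1, h2.2.2, h3⟩)
  intro 𝒰 h𝒰
  obtain ⟨V, h1, h2, h3, h4⟩ := h 𝒰 (fun n => by
    obtain ⟨⟨g1, g2, g3⟩, g4, g5⟩ := h𝒰 n
    exact ⟨g1, g2, g3, g4, g5⟩)
  refine ⟨V, h1, ⟨?_, h2, h3⟩, h4⟩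
  rintro _ ⟨n, rfl⟩
  exact (h𝒰 n).1.1 _ (h1 n)

end Pool.Agent.Results.MP_26524f_gt.S1Hereditary
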